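import Mathlib

namespace Pool.Agent.H.MP_a0e17f_co

open Finset Module Submodule Filter Topology

variable {ι V : Type} [Fintype ι] [AddCommGroup V] [Module ℝ V] (v : ι → V)

noncomputable def P (f : ι → ℝ) : Finset ι := univ.filter fun i => 0 < f i

def sp (A : Finset ι) : Submodule ℝ V := span ℝ (v '' A)

noncomputable def W (f : ι → ℝ) : Submodule ℝ V := sp v (P f) ⊓ sp v (P (-f))

def Max (f : ι → ℝ) : Prop :=
  ∑ i, f i • v i = 0 ∧ ∀ g : ι → ℝ, ∑ i, g i • v i = 0 → finrank ℝ (W v g) ≤ finrank ℝ (W v f)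

variable {v}

@[simp] theorem mem_P {f : ι → ℝ} {i : ι} : i ∈ P f ↔ 0 < f i := by simp [P]

theorem sum_ext {A : Finset ι} {c : ι → ℝ} (h : ∀ i ∉ A, c i = 0) :
    ∑ i ∈ A, c i • v i = ∑ i, c i • v i :=
  sum_subset (subset_univ _) fun i _ hi => by rw [h i hi, zero_smul]

theorem mem_sp {A : Finset ι} {x : V} :
    x ∈ sp v A ↔ ∃ c : ι → ℝ, (∀ i ∉ A, c i = 0) ∧ ∑ i, c i • v i = x := by
  classical
  constructor
  · intro h
    obtain ⟨l, h1, h2⟩ := (Finsupp.mem_span_image_iff_linearCombination ℝ).1 h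
    exact ⟨l, (Finsupp.mem_supported' ℝ l).1 h1, by
      rwa [Finsupp.linearCombination_apply, Finsupp.sum_fintype _ _ (by simp)] at h2⟩
  · rintro ⟨c, h, rfl⟩
    rw [← sum_ext h]
    exact sum_mem fun i hi => smul_mem _ _ (subset_span ⟨i, hi, rfl⟩)

theorem sum_sp {A : Finset ι} {c : ι → ℝ} (h : ∀ i ∉ A, c i = 0) : ∑ i, c i • v i ∈ sp v A :=
  mem_sp.2 ⟨c, h, rfl⟩

omit [Fintype ι] in
theorem v_sp {A : Finset ι} {i : ι} (h : i ∈ A) : v i ∈ sp v A := subset_span ⟨i, h, rfl⟩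

omit [Fintype ι] in
theorem sp_mono {A B : Finset ι} (h : A ⊆ B) : sp v A ≤ sp v B :=
  span_mono (Set.image_mono h)

theorem ind_iff {A : Finset ι} : LinearIndepOn ℝ v A ↔
    ∀ c : ι → ℝ, (∀ i ∉ A, c i = 0) → ∑ i, c i • v i = 0 → ∀ i, c i = 0 := by
  classical
  rw [linearIndepOn_finset_iff]
  refine ⟨fun h c h1 h2 i => by_contra fun e => e (h c (by rw [sum_ext h1, h2]) i
    (by_contra fun e' => e (h1 i e'))), fun h c h1 i hi => ?_⟩
  simpa [hi] using h (fun i => if i ∈ A then c i else 0) (fun i hi => if_neg hi)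
    (by simpa [ite_smul] using h1) i

omit [Fintype ι] in
theorem rank_sp {A : Finset ι} (h : LinearIndepOn ℝ v A) : finrank ℝ (sp v A) = A.card := by
  rw [sp, Set.image_eq_range, finrank_span_eq_card h]
  simp

theorem W_neg (f : ι → ℝ) : W v (-f) = W v f := by rw [W, neg_neg, inf_comm, W]

theorem Max.neg {f : ι → ℝ} (h : Max v f) : Max v (-f) :=
  ⟨by simp [h.1], fun g hg => W_neg (v := v) f ▸ h.2 g hg⟩

theorem ev (f g : ι → ℝ) : ∀ᶠ ε in 𝓝[>] (0 : ℝ), 0 < ε ∧ P f ⊆ P (f + ε • g) ∧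
    P (-f) ⊆ P (-(f + ε • g)) := by
  have k : ∀ f g : ι → ℝ, ∀ᶠ ε in 𝓝 (0 : ℝ), ∀ i, 0 < f i → 0 < f i + ε * g i := fun f g =>
    eventually_all.2 fun i => by
      by_cases h : 0 < f i
      · have : Tendsto (fun ε : ℝ => f i + ε * g i) (𝓝 0) (𝓝 (f i + 0 * g i)) :=
          Continuous.tendsto (by fun_prop) 0
        exact (this.eventually (lt_mem_nhds (by simpa using h))).mono fun _ e _ => e
      · exact Eventually.of_forall fun _ e => absurd e h
  filter_upwards [self_mem_nhdsWithin, nhdsWithin_le_nhds (k f g),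
    nhdsWithin_le_nhds (k (-f) (-g))] with ε h0 h1 h2
  exact ⟨h0, fun i hi => by simpa using h1 i (mem_P.1 hi), fun i hi => by
    have := h2 i (mem_P.1 hi)
    simp only [mem_P, Pi.neg_apply, Pi.add_apply, Pi.smul_apply, smul_eq_mul] at this ⊢
    linarith⟩

theorem sum_pos (τ : ι → ℝ) :
    ∑ i, max (τ i) 0 • v i = ∑ i, τ i • v i + ∑ i, max (-τ i) 0 • v i := by
  rw [← sum_add_distrib]
  refine sum_congr rfl fun i _ => ?_
  rw [← add_smul]
  congr 1
  rcases le_total (τ i) 0 with h | h <;> simp [h]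

variable [FiniteDimensional ℝ V]

theorem Max.pos0 {f τ : ι → ℝ} (h : Max v f) (h0 : ∀ i, f i ≠ 0 → τ i = 0)
    (hτ : ∑ i, τ i • v i ∈ sp v (P f) ⊔ sp v (P (-f))) :
    ∑ i, max (τ i) 0 • v i ∈ sp v (P f) := by
  obtain ⟨a, ha, b, hb, e⟩ := mem_sup.1 hτ
  obtain ⟨α, hα, eα⟩ := mem_sp.1 ha
  obtain ⟨β, hβ, eβ⟩ := mem_sp.1 hb
  obtain ⟨ε, ε0, h1, h2⟩ := (ev f (τ - α - β)).exists
  have hv : ∀ i, τ i ≠ 0 → (f + ε • (τ - α - β)) i = ε * τ i := fun i hi => by
    have : f i = 0 := by_contra fun c => hi (h0 i c)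
    simp [this, hα i (by simp [this]), hβ i (by simp [this])]
  have hW : W v f = W v (f + ε • (τ - α - β)) :=
    eq_of_le_of_finrank_le (inf_le_inf (sp_mono h1) (sp_mono h2)) (h.2 _ (by
      simp only [Pi.add_apply, Pi.smul_apply, Pi.sub_apply, add_smul, smul_eq_mul, mul_smul,
        sub_smul, sum_add_distrib, ← smul_sum, sum_sub_distrib, h.1, eα, eβ, ← e]
      simp))
  have : ∑ i, max (τ i) 0 • v i - a ∈ W v f := by
    rw [hW]
    refine ⟨sub_mem (sum_sp fun i hi => max_eq_right (not_lt.1 fun c => hi ?_)) (sp_mono h1 ha), ?_⟩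
    · rw [mem_P, hv i c.ne']
      positivity
    · rw [sum_pos, ← e, add_assoc, add_sub_cancel_left]
      refine add_mem (sp_mono h2 hb) (sum_sp fun i hi => max_eq_right (not_lt.1 fun c => hi ?_))
      rw [mem_P, Pi.neg_apply, hv i (by linarith : τ i < 0).ne]
      nlinarith
  simpa using add_mem this.1 ha

theorem Max.pos {f τ : ι → ℝ} (h : Max v f) (h0 : ∀ i, f i ≠ 0 → τ i = 0)
    (hτ : ∑ i, τ i • v i ∈ sp v (P f) ⊔ sp v (P (-f))) : ∑ i, max (τ i) 0 • v i ∈ W v f :=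
  ⟨h.pos0 h0 hτ, h.neg.pos0 (fun i hi => h0 i (by simpa using hi)) (by rwa [neg_neg, sup_comm])⟩

open Classical in
theorem Max.count {f : ι → ℝ} (h : Max v f) :
    Fintype.card ι + 2 * finrank ℝ ↥(sp v (P f) ⊔ sp v (P (-f))) ≤ (P f).card + (P (-f)).card +
      (univ.filter fun i => f i = 0 ∧ v i ∈ W v f).card + 2 * finrank ℝ V := by
  set U := sp v (P f) ⊔ sp v (P (-f))
  have WU : W v f ≤ U := inf_le_left.trans le_sup_left
  obtain ⟨J, -, -, h1, h2⟩ := exists_linearIndepOn_extension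
    (linearIndepOn_empty ℝ fun i => U.mkQ (v i)) (Set.empty_subset Set.univ)
  lift J to Finset ι using J.toFinite
  have q : ∀ c : ι → ℝ, ∑ i, c i • U.mkQ (v i) = U.mkQ (∑ i, c i • v i) := fun c => by
    simp only [map_sum, map_smul]
  have hJ : ∀ c : ι → ℝ, (∀ i ∉ J, c i = 0) → ∑ i, c i • v i ∈ U → ∀ i, c i = 0 := fun c a b =>
    ind_iff.1 h2 c a (by rw [q]; exact (Quotient.mk_eq_zero _).2 b)
  have J0 : ∀ i ∈ J, f i = 0 := fun i hi => by_contra fun e => by
    have := hJ (Pi.single i 1) (fun l hl => Pi.single_eq_of_ne (by rintro rfl; exact hl hi) _) (by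
      simp only [Pi.single_apply, ite_smul, one_smul, zero_smul, sum_ite_eq', mem_univ, if_true]
      rcases lt_or_gt_of_ne e with c | c
      exacts [mem_sup_right (v_sp (by simpa using c)), mem_sup_left (v_sp (mem_P.2 c))]) i
    simp at this
  have ex : ∀ i, ∃ τ : ι → ℝ, i ∉ J → τ i = 1 ∧ (∀ l ∉ J, l ≠ i → τ l = 0) ∧
      ∑ l, τ l • v l ∈ U := fun i => by
    obtain ⟨c, c1, c2⟩ := mem_sp.1 (h1 ⟨i, trivial, rfl⟩)
    refine ⟨Pi.single i 1 - c, fun hi => ⟨by simp [c1 i hi], fun l a b => by simp [c1 l a, b], ?_⟩⟩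
    rw [← Quotient.mk_eq_zero, ← mkQ_apply, ← q]
    simp only [Pi.sub_apply, sub_smul, sum_sub_distrib, c2, Pi.single_apply, ite_smul, one_smul,
      zero_smul, sum_ite_eq', mem_univ, if_true, sub_self]
  choose τ hτ using ex
  let I := univ.filter fun i => f i = 0 ∧ i ∉ J ∧ v i ∉ W v f
  have hI : ∀ i ∈ I, f i = 0 ∧ i ∉ J ∧ v i ∉ W v f := fun i hi => (mem_filter.1 hi).2
  have t0 : ∀ i ∈ I, ∀ l, f l ≠ 0 → τ i l = 0 := fun i hi l hl =>
    (hτ i (hI i hi).2.1).2.1 l (fun c => hl (J0 l c)) (by rintro rfl; exact hl (hI _ hi).1)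
  have k : ∀ i ∈ I, ∀ σ : ι → ℝ, (∀ l, f l ≠ 0 → σ l = 0) → ∑ l, σ l • v l ∈ U →
      (∀ l ∉ J, τ i l = max (σ l) 0) → (∀ l, τ i l = max (σ l) 0) ∧ ∑ l, τ i l • v l ∈ W v f := by
    intro i hi σ a b c
    have m := h.pos a b
    have : ∀ l, τ i l = max (σ l) 0 := fun l => sub_eq_zero.1 (hJ (fun l => τ i l - max (σ l) 0)
      (fun l hl => sub_eq_zero.2 (c l hl)) (by
        simp only [sub_smul, sum_sub_distrib]
        exact sub_mem (hτ i (hI i hi).2.1).2.2 (WU m)) l)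
    exact ⟨this, by rwa [sum_congr rfl fun l _ => by rw [this l]]⟩
  have ex : ∀ i ∈ I, ∃ l ∈ J, 0 < τ i l := fun i hi => by
    obtain ⟨a, b, c⟩ := hτ i (hI i hi).2.1
    obtain ⟨k1, k2⟩ := k i hi (τ i) (t0 i hi) c fun l hl => by
      by_cases e : l = i
      · simp [e, a]
      · simp [b l hl e]
    by_contra hn
    push Not at hn
    rw [sum_eq_single i (fun l _ e => by
      by_cases m : l ∈ J
      · rw [k1 l, max_eq_right (hn l m), zero_smul]
      · rw [b l m e, zero_smul]) (by simp), a, one_smul] at k2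
    exact (hI i hi).2.2 k2
  choose! φ φ1 φ2 using ex
  have hc : I.card ≤ J.card := card_le_card_of_injOn φ φ1 fun i hi i' hi' e => by_contra fun ne => by
    obtain ⟨a, b, c⟩ := hτ i (hI i hi).2.1
    obtain ⟨a', b', c'⟩ := hτ i' (hI i' hi').2.1
    have := (k i hi (τ i - τ i') (fun l hl => by simp [t0 i hi l hl, t0 i' hi' l hl]) (by
      simp only [Pi.sub_apply, sub_smul, sum_sub_distrib]
      exact sub_mem c c') fun l hl => by
        by_cases e : l = i
        · simp [e, a, b' i (e ▸ hl) ne]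
        · by_cases e' : l = i'
          · simp [e', a', b i' (e' ▸ hl) (Ne.symm ne)]
          · simp [b l hl e, b' l hl e']).1 (φ i)
    have p1 := φ2 i hi
    have p2 := e ▸ φ2 i' hi'
    rcases max_choice (τ i (φ i) - τ i' (φ i)) 0 with m | m <;> rw [Pi.sub_apply, m] at this <;>
      linarith
  have hr : J.card ≤ finrank ℝ (V ⧸ U) := by simpa using h2.fintype_card_le_finrank
  have := U.finrank_quotient_add_finrank
  have hu : Fintype.card ι ≤ (P f ∪ P (-f) ∪ (univ.filter fun i => f i = 0 ∧ v i ∈ W v f) ∪ J ∪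
      I).card := card_le_card (s := univ) fun i _ => by
    rcases lt_trichotomy (f i) 0 with c | c | c <;> simp [I, c]
    tauto
  have := card_union_le (P f ∪ P (-f) ∪ (univ.filter fun i => f i = 0 ∧ v i ∈ W v f) ∪ J) I
  have := card_union_le (P f ∪ P (-f) ∪ (univ.filter fun i => f i = 0 ∧ v i ∈ W v f)) J
  have := card_union_le (P f ∪ P (-f)) (univ.filter fun i => f i = 0 ∧ v i ∈ W v f)
  have := card_union_le (P f) (P (-f))
  omega

end Pool.Agent.H.MP_a0e17f_co
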