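import Pool.Agent.H.MP_a0e17f_co.A

namespace Pool.Agent.H.MP_a0e17f_co

open Finset Module Submodule Filter Topology

variable {ι V : Type} [Fintype ι] [AddCommGroup V] [Module ℝ V] {v : ι → V}

theorem cara (N : ℕ) : ∀ c : ι → ℝ, (∀ i, 0 ≤ c i) → (P c).card = N → ∃ c' : ι → ℝ,
    (∀ i, 0 ≤ c' i) ∧ P c' ⊆ P c ∧ ∑ i, c' i • v i = ∑ i, c i • v i ∧ LinearIndepOn ℝ v (P c') := by
  induction N using Nat.strong_induction_on with
  | _ N ih =>
  intro c hc hN
  by_cases hi : LinearIndepOn ℝ v (P c)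
  · exact ⟨c, hc, Subset.rfl, rfl, hi⟩
  have : ∃ g : ι → ℝ, (∀ i ∉ P c, g i = 0) ∧ ∑ i, g i • v i = 0 ∧ ∃ i, 0 < g i := by
    rw [ind_iff] at hi
    push Not at hi
    obtain ⟨g, a, b, i, d⟩ := hi
    rcases lt_or_gt_of_ne d with d | d
    exacts [⟨-g, by simpa using a, by simpa using b, i, by simpa using d⟩, ⟨g, a, b, i, d⟩]
  obtain ⟨g, a, b, i, d⟩ := this
  obtain ⟨u, hu, hm⟩ := exists_min_image (P g) (fun i => c i / g i) ⟨i, mem_P.2 d⟩
  have hu := mem_P.1 hu
  have t0 := div_nonneg (hc u) hu.le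
  have s : P (c - (c u / g u) • g) ⊆ P c := fun l hl => by_contra fun e => by
    simp [a l e] at hl
    exact e (mem_P.2 hl)
  obtain ⟨c', h1, h2, h3, h4⟩ := ih _ (hN ▸ card_lt_card ⟨s, fun e => by
    have := e (by_contra fun m => hu.ne' (a u m))
    simp [hu.ne'] at this⟩) _ (fun l => by
      rw [Pi.sub_apply, Pi.smul_apply, smul_eq_mul, sub_nonneg]
      by_cases m : 0 < g l
      · exact (le_div_iff₀ m).1 (hm l (mem_P.2 m))
      · nlinarith [hc l]) rfl
  refine ⟨c', h1, h2.trans s, ?_, h4⟩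
  simp only [h3, Pi.sub_apply, Pi.smul_apply, smul_eq_mul, sub_smul, mul_smul, sum_sub_distrib,
    ← smul_sum, b, smul_zero, sub_zero]

theorem x_mem {f : ι → ℝ} (h : ∑ i, f i • v i = 0) : ∑ i, max (f i) 0 • v i ∈ W v f :=
  ⟨sum_sp fun i hi => max_eq_right (by simpa using hi), by
    rw [sum_pos, h, zero_add]
    exact sum_sp fun i hi => max_eq_right (by simpa using hi)⟩

variable [FiniteDimensional ℝ V]

theorem exists_max : ∃ f, Max v f ∧ LinearIndepOn ℝ v (P f) ∧ LinearIndepOn ℝ v (P (-f)) := by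
  obtain ⟨f, hf, hm⟩ := exists_minimalFor_of_wellFoundedLT (fun g : ι → ℝ => ∑ i, g i • v i = 0)
    (fun g => finrank ℝ V - finrank ℝ (W v g)) ⟨0, by simp⟩
  have hM : ∀ g : ι → ℝ, ∑ i, g i • v i = 0 → finrank ℝ (W v g) ≤ finrank ℝ (W v f) :=
    fun g hg => by
      have := @hm g hg
      have := (W v g).finrank_le
      have := (W v f).finrank_le
      simp only at *
      omega
  obtain ⟨w, hw⟩ := exists_forall_notMem_of_forall_ne_top
    (fun I : {I : Finset ι // ¬ W v f ≤ sp v I} => (sp v I).comap (W v f).subtype)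
    fun I e => I.2 (comap_subtype_eq_top.1 e)
  obtain ⟨α, hα, eα⟩ := mem_sp.1 w.2.1
  obtain ⟨β, hβ, eβ⟩ := mem_sp.1 w.2.2
  set x := ∑ i, max (f i) 0 • v i with hx
  have g : ∀ᶠ ε in 𝓝[>] (0 : ℝ), ∀ I : {I : Finset ι // ¬ W v f ≤ sp v I},
      x + ε • w.1 ∉ sp v I := eventually_all.2 fun I => by
    refine (nhdsGT_le_nhdsNE 0).trans (nhdsNE_le_cofinite 0) (Set.Finite.compl_mem_cofinite
      (Set.Subsingleton.finite fun s hs t ht => by_contra fun e => hw I ?_))
    have := sub_mem hs ht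
    rw [add_sub_add_left_eq_sub, ← sub_smul] at this
    exact (smul_mem_iff _ (sub_ne_zero.2 e)).1 this
  obtain ⟨ε, ⟨⟨-, h1, -⟩, -, h2, -⟩, h3⟩ := (((ev f α).and (ev (-f) β)).and g).exists
  have k : ∀ f α : ι → ℝ, (∀ i ∉ P f, α i = 0) → P f ⊆ P (f + ε • α) →
      ∑ i, max (f i) 0 • v i = x → ∑ i, α i • v i = w → ∃ c : ι → ℝ, (∀ i, 0 ≤ c i) ∧ P c ⊆ P f ∧
        ∑ i, c i • v i = x + ε • w.1 ∧ LinearIndepOn ℝ v (P c) := fun f α a b c d => by
    obtain ⟨c', k1, k2, k3, k4⟩ := cara (v := v) _ (fun i => max (f i) 0 + ε * α i) (fun i => by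
      by_cases m : i ∈ P f
      · rw [max_eq_left (mem_P.1 m).le]
        exact (mem_P.1 (b m)).le
      · simp [a i m]) rfl
    refine ⟨c', k1, k2.trans fun i hi => by_contra fun m => ?_, ?_, k4⟩
    · simp [a i m] at hi
      exact m (mem_P.2 hi)
    · simp only [k3, add_smul, mul_smul, sum_add_distrib, ← smul_sum, c, d]
  obtain ⟨a, a1, a2, a3, a4⟩ := k f α hα h1 rfl eα
  obtain ⟨b, b1, b2, b3, b4⟩ := k (-f) β hβ h2 (by rw [hx, sum_pos f, hf, zero_add]; rfl) eβ
  have d : ∀ i, a i = 0 ∨ b i = 0 := fun i => by_contra fun e => by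
    have p := mem_P.1 (a2 (mem_P.2 ((a1 i).lt_of_ne' fun c => e (Or.inl c))))
    have q := mem_P.1 (b2 (mem_P.2 ((b1 i).lt_of_ne' fun c => e (Or.inr c))))
    simp only [Pi.neg_apply] at q
    linarith
  have e1 : P (a - b) = P a := by
    ext i
    rcases d i with e | e <;> simp [e, b1 i]
  have e2 : P (-(a - b)) = P b := by
    ext i
    rcases d i with e | e <;> simp [e, a1 i]
  have z : ∀ c : ι → ℝ, (∀ i, 0 ≤ c i) → ∑ i, c i • v i = x + ε • w.1 → W v f ≤ sp v (P c) :=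
    fun c c1 c2 => by_contra fun e => h3 ⟨_, e⟩ (c2 ▸ sum_sp fun i hi =>
      (c1 i).antisymm' (by simpa using hi))
  refine ⟨a - b, ⟨by simp [sub_smul, a3, b3], fun g hg => (hM g hg).trans (finrank_mono ?_)⟩,
    e1 ▸ a4, e2 ▸ b4⟩
  rw [W, W, e1, e2]
  exact le_inf (z a a1 a3) (z b b1 b3)

theorem main {k : ℕ} (hk : 2 ≤ k) (e : V →ₗ[ℝ] ℝ) (he : ∀ i, e (v i) = 1)
    (hg : ∀ A : Finset ι, A.card ≤ k + 1 → LinearIndepOn ℝ v A) (hr : 0 < finrank ℝ V)
    (hn : 2 * finrank ℝ V + k ≤ Fintype.card ι + 2) :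
    ∃ f : ι → ℝ, ∑ i, f i • v i = 0 ∧ k + 1 ≤ finrank ℝ (W v f) := by
  classical
  by_contra hc
  push Not at hc
  obtain ⟨f, hf, iA, iB⟩ := exists_max (v := v)
  have es : ∀ c : ι → ℝ, e (∑ i, c i • v i) = ∑ i, c i := fun c => by simp [he]
  have jk := hc f hf.1
  have c1 := hf.count
  have c2 := finrank_sup_add_finrank_inf_eq (sp v (P f)) (sp v (P (-f)))
  have jA : finrank ℝ (W v f) ≤ _ := finrank_mono (inf_le_left (a := sp v (P f)))
  have jB : finrank ℝ (W v f) ≤ _ := finrank_mono (inf_le_right (b := sp v (P (-f))))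
  rw [rank_sp iA] at jA
  rw [rank_sp iB] at jB
  rw [rank_sp iA, rank_sp iB, ← W] at c2
  set Y := univ.filter fun i => f i = 0 ∧ v i ∈ W v f
  have hY : ∀ i ∈ Y, f i = 0 ∧ v i ∈ W v f := fun i hi => (mem_filter.1 hi).2
  have sl : ∀ (T : Finset ι) (X : Submodule ℝ V), (∀ i ∈ T, v i ∈ X) → sp v T ≤ X :=
    fun T X h => span_le.2 (by rintro _ ⟨i, hi, rfl⟩; exact h i hi)
  have hT : ∀ (T : Finset ι) (X : Submodule ℝ V), T.card ≤ k + 1 → (∀ i ∈ T, v i ∈ X) →
      T.card ≤ finrank ℝ X := fun T X a b => rank_sp (hg T a) ▸ finrank_mono (sl T X b)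
  have G : ∀ A : Finset ι, ∀ i ∉ A, v i ∈ sp v A → k + 1 ≤ A.card := fun A i a b =>
    by_contra fun c => by
      have := hT (insert i A) (sp v A) (by rw [card_insert_of_notMem a]; omega)
        (by simpa [b] using fun l hl => v_sp hl)
      rw [card_insert_of_notMem a, rank_sp (hg A (by omega))] at this
      omega
  have yj : Y.card ≤ finrank ℝ (W v f) := by_contra fun c => by
    obtain ⟨T, a, b⟩ := exists_subset_card_eq (not_le.1 c)
    have := hT T (W v f) (by omega) fun i hi => (hY i (a hi)).2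
    omega
  have j0 : 0 < finrank ℝ (W v f) := by
    obtain ⟨g, a, i, b⟩ := Fintype.not_linearIndependent_iff.1 fun h : LinearIndependent ℝ v => by
      have := h.fintype_card_le_finrank
      omega
    refine lt_of_lt_of_le (finrank_pos_iff_exists_ne_zero.2 ⟨⟨_, x_mem a⟩, fun c => b ?_⟩)
      (hf.2 g a)
    have c := congrArg (fun x : W v g => e x) c
    have d := congrArg e a
    simp only [es, ZeroMemClass.coe_zero, map_zero] at c d
    have m : ∀ l, g l ≤ 0 := fun l => (le_max_left _ _).trans_eq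
      ((sum_eq_zero_iff_of_nonneg fun l _ => le_max_right _ _).1 c l (mem_univ l))
    exact (sum_eq_zero_iff_of_nonpos fun l _ => m l).1 d i (mem_univ i)
  rcases Y.eq_empty_or_nonempty with y | ⟨y, hy⟩
  · obtain ⟨a, ha⟩ := card_pos.1 (j0.trans_le jA)
    have := G (P (-f)) a (by simpa using (mem_P.1 ha).le) (by
      have : W v f = sp v (P f) := eq_of_le_of_finrank_le inf_le_left (by
        rw [rank_sp iA]; rw [y, card_empty] at c1; omega)
      exact (this.ge (v_sp ha)).2)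
    rw [y, card_empty] at c1
    omega
  have gA := G (P f) y (by simp [(hY y hy).1]) (hY y hy).2.1
  have gB := G (P (-f)) y (by simp [(hY y hy).1]) (hY y hy).2.2
  have yk : Y.card = k := by omega
  have iA' : ∀ a ∈ P f, sp v (insert a Y) = sp v (P f) := fun a ha => by
    have m : a ∉ Y := fun m => (mem_P.1 ha).ne' (hY a m).1
    refine eq_of_le_of_finrank_le (sl _ _ (by simpa [v_sp ha] using fun l hl => (hY l hl).2.1)) ?_
    rw [rank_sp iA, rank_sp (hg _ (by rw [card_insert_of_notMem m]; omega)),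
      card_insert_of_notMem m]
    omega
  choose! α α1 α2 using fun y (hy : y ∈ Y) => mem_sp.1 (hY y hy).2.1
  set X := ∑ i, max (f i) 0 • v i with hX
  obtain ⟨x, hx, hx'⟩ : ∃ x ∈ Y, v x ≠ (e X)⁻¹ • X := by
    by_contra hn
    push Not at hn
    have := hT Y (span ℝ {X}) (by omega) fun i hi => hn i hi ▸ smul_mem _ _ (subset_span rfl)
    have := finrank_span_le_card (R := ℝ) ({X} : Set V)
    simp only [Set.toFinset_singleton, card_singleton] at this
    omega
  obtain ⟨a', ha', hm⟩ := exists_max_image (P f) (fun a => α x a / f a) (card_pos.1 (by omega))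
  have s1 : ∑ i, α x i = 1 := by rw [← es, α2 x hx, he]
  have p0 : 0 < α x a' / f a' := by_contra fun c => by
    have : ∑ i, α x i ≤ 0 := sum_nonpos fun i _ => by
      by_cases m : i ∈ P f
      · simpa using (div_le_iff₀ (mem_P.1 m)).1 ((hm i m).trans (not_lt.1 c))
      · exact (α1 x hx i m).le
    linarith
  obtain ⟨a, ha, lt⟩ : ∃ a ∈ P f, α x a / f a < α x a' / f a' := by
    by_contra hn
    push Not at hn
    have : v x = (α x a' / f a') • X := by
      rw [← α2 x hx, hX, smul_sum]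
      refine sum_congr rfl fun i _ => ?_
      by_cases m : i ∈ P f
      · rw [smul_smul, ← (hm i m).antisymm (hn i m), max_eq_left (mem_P.1 m).le,
          div_mul_cancel₀ _ (mem_P.1 m).ne']
      · rw [α1 x hx i m, max_eq_right (by simpa using m), zero_smul, smul_zero]
    have d := he x
    rw [this, map_smul, smul_eq_mul] at d
    exact hx' (by rw [this, eq_inv_of_mul_eq_one_left d])
  obtain ⟨s, s2, s3⟩ := exists_between (max_lt p0 lt)
  have s0 := (le_max_left _ _).trans_lt s2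
  have dy : ∀ y ∈ Y, ∑ i, (Pi.single y 1 - α y : ι → ℝ) i • v i = 0 := fun y hy => by
    simp [sub_smul, α2 y hy, Pi.single_apply, ite_smul]
  have yA : ∀ y ∈ Y, y ∉ P f := fun y hy => by simp [(hY y hy).1]
  obtain ⟨ε, ε0, h1, h2⟩ := (ev (s • f + (Pi.single x 1 - α x))
    (∑ y ∈ Y, (Pi.single y 1 - α y))).exists
  refine (hc (s • f + (Pi.single x 1 - α x) + ε • ∑ y ∈ Y, (Pi.single y 1 - α y)) ?_).not_ge
    (gA.trans (rank_sp iA ▸ finrank_mono (le_inf ?_ ?_)))
  · simp only [Pi.add_apply, Pi.smul_apply, add_smul, smul_eq_mul, mul_smul, sum_add_distrib,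
      ← smul_sum, hf.1, dy x hx, Finset.sum_apply, sum_smul]
    rw [sum_comm, sum_eq_zero dy]
    simp
  · rw [← iA' a ha]
    refine sp_mono (insert_subset (h1 ?_) fun y hy => ?_)
    · have := (div_lt_iff₀ (mem_P.1 ha)).1 ((le_max_right _ _).trans_lt s2)
      have ne : a ≠ x := fun c => yA x hx (c ▸ ha)
      simpa [ne] using this
    · have : ∑ z ∈ Y, α z y = 0 := sum_eq_zero fun z hz => α1 z hz y (yA y hy)
      simp [(hY y hy).1, α1 x hx y (yA y hy), Finset.sum_apply, this, Pi.single_apply, hy]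
      split_ifs <;> linarith
  · rw [← iA' a' ha']
    refine sl _ _ (forall_mem_insert _ _ _ |>.2 ⟨v_sp (h2 ?_), fun y hy =>
      sp_mono (fun b hb => h2 ?_) (hY y hy).2.2⟩)
    · have := (lt_div_iff₀ (mem_P.1 ha')).1 s3
      have ne : a' ≠ x := fun c => yA x hx (c ▸ ha')
      simpa [ne] using this
    · have b0 : f b < 0 := by simpa using hb
      have ne : b ≠ x := fun c => b0.ne (c ▸ (hY x hx).1)
      simpa [ne, α1 x hx b (by simpa using b0.le)] using mul_neg_of_pos_of_neg s0 b0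

end Pool.Agent.H.MP_a0e17f_co
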